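import Pool.Agent.H45.CD.Geom

/-!
# CD, module POSR: `ℓ(w s_i) > ℓ(w)` implies `ρ(w) α_i ≥ 0`
-/

namespace Pool.Agent.H52.CD

variable {B W : Type} [Group W]

/-- the coefficients `sin(kθ)/sin θ` (or `k`) -/
noncomputable def posQ (m k : ℕ) : ℝ :=
  if m = 0 then k else Real.sin (k * (Real.pi / m)) / Real.sin (Real.pi / m)

theorem posQ_nonneg (m k : ℕ) (hm : m ≠ 1) (hk : m = 0 ∨ k ≤ m) : 0 ≤ posQ m k := by
  unfold posQ
  split_ifs with h
  · positivity
  · have hk' : k ≤ m := by tauto
    have hm2 : 2 ≤ m := by omega
    have hm2' : (2 : ℝ) ≤ m := by exact_mod_cast hm2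
    have hk2 : (k : ℝ) ≤ m := by exact_mod_cast hk'
    have hp := Real.pi_pos
    apply div_nonneg
    · apply Real.sin_nonneg_of_nonneg_of_le_pi (by positivity)
      rw [mul_div_assoc', div_le_iff₀ (by positivity)]
      nlinarith
    · apply Real.sin_nonneg_of_nonneg_of_le_pi (by positivity)
      rw [div_le_iff₀ (by positivity)]
      nlinarith

theorem posQ_zero (m : ℕ) : posQ m 0 = 0 := by
  unfold posQ; split_ifs <;> simp

theorem posQ_one (m : ℕ) (hm : m ≠ 1) : posQ m 1 = 1 := by
  unfold posQ
  split_ifs with h
  · simp
  · have hm2' : (2 : ℝ) ≤ m := by exact_mod_cast (show 2 ≤ m by omega)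
    have hs : 0 < Real.sin (Real.pi / m) := by
      apply Real.sin_pos_of_pos_of_lt_pi
      · have := Real.pi_pos; positivity
      · rw [div_lt_iff₀ (by positivity)]
        nlinarith [Real.pi_pos]
    rw [Nat.cast_one, one_mul, div_self hs.ne']

theorem posQ_rec (m k : ℕ) : posQ m (k + 2) = 2 * Real.cos (Real.pi / m) * posQ m (k + 1) - posQ m k := by
  unfold posQ
  split_ifs with h
  · subst h
    simp only [Nat.cast_zero, div_zero, Real.cos_zero]
    push_cast; ring
  · have e1 : Real.sin (((k + 2 : ℕ) : ℝ) * (Real.pi / m)) =
        2 * Real.cos (Real.pi / m) * Real.sin (((k + 1 : ℕ) : ℝ) * (Real.pi / m)) -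
          Real.sin ((k : ℝ) * (Real.pi / m)) := by
      have a1 : ((k + 2 : ℕ) : ℝ) * (Real.pi / m) = ((k + 1 : ℕ) : ℝ) * (Real.pi / m) + Real.pi / m := by
        push_cast; ring
      have a2 : ((k : ℕ) : ℝ) * (Real.pi / m) = ((k + 1 : ℕ) : ℝ) * (Real.pi / m) - Real.pi / m := by
        push_cast; ring
      rw [a1, a2, Real.sin_add, Real.sin_sub]; ring
    rw [e1]; ring

section

variable {M : CoxeterMatrix B} (cs : CoxeterSystem M W) (G : Geo cs)

/-- alternating product with `k` letters, the last one is `j` -/
noncomputable def aw (i j : B) (k : ℕ) : W := cs.wordProd (CoxeterSystem.alternatingWord i j k)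

theorem aw_zero (i j : B) : aw cs i j 0 = 1 := by
  simp [aw, CoxeterSystem.alternatingWord]

theorem aw_succ (i j : B) (k : ℕ) : aw cs i j (k + 1) = aw cs j i k * cs.simple j := by
  unfold aw
  rw [CoxeterSystem.alternatingWord_succ, cs.wordProd_concat]

theorem aw_succ' (i j : B) (k : ℕ) :
    aw cs i j (k + 1) = cs.simple (if Even k then j else i) * aw cs i j k := by
  unfold aw
  rw [CoxeterSystem.alternatingWord_succ', cs.wordProd_cons]

theorem aw_len (i j : B) (k : ℕ) : cs.length (aw cs i j k) ≤ k := by
  unfold aw
  refine (cs.length_wordProd_le _).trans ?_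
  simp

theorem rho_simple_al (i j : B) : G.ρ (cs.simple i) (iv (al j)) = iv (al j) - bil M j i • iv (al i) := by
  rw [G.simple, geom_rf_al, geom_co1_al]

theorem rho_mul_ap (v w : W) (x : VV B) : G.ρ (v * w) x = G.ρ v (G.ρ w x) := by
  rw [map_mul]; rfl

/-- `ρ(a_k) α_i` -/
theorem rho_aw (i j : B) (hij : i ≠ j) (k : ℕ) :
    G.ρ (aw cs i j k) (iv (al i)) = posQ (M i j) (if Even k then k + 1 else k) • iv (al i) +
      posQ (M i j) (if Even k then k else k + 1) • iv (al j) := by
  have hm : M i j ≠ 1 := M.off_diagonal i j hij
  induction k using Nat.strong_induction_on generalizing i j with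
  | _ k ih =>
    match k with
    | 0 => simp [aw_zero, posQ_zero, posQ_one _ hm]
    | 1 =>
      rw [aw_succ, aw_zero, one_mul, rho_simple_al]
      have h2 := posQ_rec (M i j) 0
      rw [posQ_zero, zero_add, posQ_one _ hm] at h2
      simp only [Nat.not_even_one, if_false, posQ_one _ hm, one_smul, bil]
      rw [show (1 : ℕ) + 1 = 2 from rfl, h2]
      module
    | k + 2 =>
      have hji : M j i ≠ 1 := M.off_diagonal j i (Ne.symm hij)
      have h1 := ih (k + 1) (by omega) j i (Ne.symm hij) hji
      have h0 := ih k (by omega) i j hij hm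
      have hs : M j i = M i j := M.symmetric j i
      rw [aw_succ, rho_mul_ap, rho_simple_al, map_sub, map_smul, h1, aw_succ, rho_mul_ap,
        rho_simple_al, map_sub, map_smul, h0, geom_bil_self, hs, bil]
      by_cases hk : Even k
      · have hk1 : ¬ Even (k + 1) := by
          rw [Nat.even_add_one]; simpa using hk
        have hk2 : Even (k + 2) := by
          rw [Nat.even_add]; simp [hk]
        simp only [hk, hk1, hk2, if_true, if_false]
        rw [show k + 2 + 1 = k + 1 + 2 by ring, show k + 1 + 1 = k + 2 by ring, posQ_rec (M i j) (k + 1),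
          show k + 1 + 1 = k + 2 by ring, posQ_rec (M i j) k]
        module
      · have hk1 : Even (k + 1) := by
          rw [Nat.even_add_one]; simpa using hk
        have hk2 : ¬ Even (k + 2) := by
          rw [Nat.even_add]; simp [hk]
        simp only [hk, hk1, hk2, if_true, if_false]
        rw [show k + 2 + 1 = k + 1 + 2 by ring, show k + 1 + 1 = k + 2 by ring, posQ_rec (M i j) (k + 1),
          show k + 1 + 1 = k + 2 by ring, posQ_rec (M i j) k]
        module

theorem aw_braid (i j : B) : aw cs i j (M i j) = aw cs j i (M i j) := by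
  have h := cs.wordProd_braidWord_eq i j
  simp only [CoxeterSystem.braidWord] at h
  rw [M.symmetric j i] at h
  exact h

/-- `v ↦ ρ v` on the positive cone spanned by two simple roots -/
theorem pos_comb (v : W) (i j : B) (x y : ℝ) (hx : 0 ≤ x) (hy : 0 ≤ y)
    (hi : ∃ β : B →₀ ℝ, (∀ j, 0 ≤ β j) ∧ G.ρ v (iv (al i)) = iv β)
    (hj : ∃ β : B →₀ ℝ, (∀ j, 0 ≤ β j) ∧ G.ρ v (iv (al j)) = iv β) :
    ∃ β : B →₀ ℝ, (∀ j, 0 ≤ β j) ∧ G.ρ v (x • iv (al i) + y • iv (al j)) = iv β := by
  obtain ⟨β, hb, eb⟩ := hi
  obtain ⟨γ, hc, ec⟩ := hj
  refine ⟨x • β + y • γ, fun l => ?_, ?_⟩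
  · have := hb l
    have := hc l
    simp only [Finsupp.add_apply, Finsupp.smul_apply, smul_eq_mul]
    positivity
  · rw [map_add, map_smul, map_smul, eb, ec]
    simp [iv]

theorem posr_aux (n : ℕ) : ∀ (w : W) (i : B), cs.length w = n → cs.length w < cs.length (w * cs.simple i) →
    ∃ β : B →₀ ℝ, (∀ j, 0 ≤ β j) ∧ G.ρ w (iv (al i)) = iv β := by
  induction n using Nat.strong_induction_on with
  | _ n ih =>
    intro w i hn hi
    by_cases hw : w = 1
    · subst hw
      refine ⟨al i, fun l => ?_, by simp⟩
      unfold al
      by_cases h : i = l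
      · subst h; simp
      · simp [h]
    obtain ⟨j, hj⟩ := cs.exists_rightDescent_of_ne_one hw
    rw [cs.isRightDescent_iff] at hj
    have hij : i ≠ j := by
      rintro rfl
      omega
    -- `P k`: the right factor `aw i j k` can be stripped
    let P : ℕ → Prop := fun k => cs.length (w * (aw cs i j k)⁻¹) + k = cs.length w
    have hP1 : P 1 := by
      simp only [P, aw_succ, aw_zero, one_mul, cs.inv_simple]
      exact hj
    have hle : ∀ k, P k → k ≤ cs.length w := by
      intro k hk
      have : cs.length (w * (aw cs i j k)⁻¹) + k = cs.length w := hk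
      omega
    classical
    obtain ⟨k, hk, hmax⟩ : ∃ k, P k ∧ ∀ l, P l → l ≤ k := by
      have hne : ∃ k, P k := ⟨1, hP1⟩
      refine ⟨Nat.findGreatest P (cs.length w), Nat.findGreatest_spec (hle 1 hP1) hP1, ?_⟩
      intro l hl
      exact Nat.le_findGreatest (hle l hl) hl
    have hk1 : 1 ≤ k := hmax 1 hP1
    set v : W := w * (aw cs i j k)⁻¹ with hv
    have hkv : cs.length v + k = cs.length w := hk
    have hwv : w = v * aw cs i j k := by rw [hv]; group
    -- the next letter
    have hnext : cs.length v < cs.length (v * cs.simple (if Even k then j else i)) := by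
      rcases cs.length_mul_simple v (if Even k then j else i) with h | h
      · omega
      · exfalso
        have : P (k + 1) := by
          simp only [P]
          rw [aw_succ', mul_inv_rev, cs.inv_simple, ← mul_assoc, ← hv]
          omega
        have := hmax _ this
        omega
    have hprev : cs.length v < cs.length (v * cs.simple (if Even k then i else j)) := by
      obtain ⟨l, rfl⟩ : ∃ l, k = l + 1 := ⟨k - 1, by omega⟩
      have e : (if Even (l + 1) then i else j) = (if Even l then j else i) := by
        by_cases h : Even l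
        · have : ¬ Even (l + 1) := by rw [Nat.even_add_one]; simpa using h
          simp [h, this]
        · have : Even (l + 1) := by rw [Nat.even_add_one]; simpa using h
          simp [h, this]
      rw [e]
      have h2 : w = v * cs.simple (if Even l then j else i) * aw cs i j l := by
        have h4 : w = v * (cs.simple (if Even l then j else i) * aw cs i j l) := by
          rw [← aw_succ']; exact hwv
        exact h4.trans (mul_assoc _ _ _).symm
      have h3 : cs.length w ≤ cs.length (v * cs.simple (if Even l then j else i)) + l := by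
        conv_lhs => rw [h2]
        refine (cs.length_mul_le _ _).trans ?_
        have := aw_len cs i j l
        omega
      rcases cs.length_mul_simple v (if Even l then j else i) with h | h
      · omega
      · omega
    have hvi : cs.length v < cs.length (v * cs.simple i) := by
      by_cases h : Even k
      · simpa [h] using hprev
      · simpa [h] using hnext
    have hvj : cs.length v < cs.length (v * cs.simple j) := by
      by_cases h : Even k
      · simpa [h] using hnext
      · simpa [h] using hprev
    have pi := ih (cs.length v) (by omega) v i rfl hvi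
    have pj := ih (cs.length v) (by omega) v j rfl hvj
    -- `k < M i j`
    have hkm : M i j = 0 ∨ k < M i j := by
      by_contra hcon
      push Not at hcon
      obtain ⟨hm0, hmk⟩ := hcon
      -- the factor `aw i j m` can be stripped
      obtain ⟨d, hd⟩ : ∃ d, k = M i j + d := ⟨k - M i j, by omega⟩
      have hsplit : ∀ d m : ℕ, ∃ u : W, aw cs i j (m + d) = u * aw cs i j m ∧ cs.length u ≤ d := by
        intro d
        induction d with
        | zero => intro m; exact ⟨1, by simp, by simp⟩
        | succ d ihd =>
          intro m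
          obtain ⟨u, hu, hul⟩ := ihd m
          refine ⟨cs.simple (if Even (m + d) then j else i) * u, ?_, ?_⟩
          · rw [← add_assoc, aw_succ', hu, mul_assoc]
          · refine (cs.length_mul_le _ _).trans ?_
            rw [cs.length_simple]
            omega
      obtain ⟨u, hu, hul⟩ := hsplit d (M i j)
      obtain ⟨m', hm'⟩ : ∃ m', M i j = m' + 1 := ⟨M i j - 1, by omega⟩
      have e1 : w * cs.simple i = v * u * aw cs i j m' := by
        rw [hwv, hd, hu, aw_braid, hm', aw_succ]
        simp only [mul_assoc]
        rw [cs.simple_mul_simple_self, mul_one]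
      have e2 : cs.length (w * cs.simple i) ≤ cs.length v + d + m' := by
        rw [e1]
        refine (cs.length_mul_le _ _).trans ?_
        have := cs.length_mul_le v u
        have := aw_len cs i j m'
        omega
      omega
    rw [hwv, rho_mul_ap, rho_aw cs G i j hij k]
    refine pos_comb cs G v i j _ _ ?_ ?_ pi pj
    · apply posQ_nonneg _ _ (M.off_diagonal i j hij)
      rcases hkm with h | h
      · exact Or.inl h
      · right; split_ifs <;> omega
    · apply posQ_nonneg _ _ (M.off_diagonal i j hij)
      rcases hkm with h | h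
      · exact Or.inl h
      · right; split_ifs <;> omega

end

theorem cd_posr : POSR := fun _ _ _ _ cs G w i h => posr_aux cs G _ w i rfl h

end Pool.Agent.H52.CD
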