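import Pool.Agent.H52.CD.Stmts

/-!
# CD, module GEOM: the geometric representation exists
-/

namespace Pool.Agent.H52.CD

section dih

variable {V : Type} [AddCommGroup V] [Module ℝ V]

/-- powers of the product of two reflections (twice the square of the sine cleared) -/
theorem geom_pow (f g : V →ₗ[ℝ] ℝ) (a b : V) (θ : ℝ) (hfa : f a = 2) (hgb : g b = 2)
    (hfb : f b = -2 * Real.cos θ) (hga : g a = -2 * Real.cos θ) (F G : Module.End ℝ V)
    (hF : ∀ v, F v = v - f v • a) (hG : ∀ v, G v = v - g v • b) (k : ℕ) (v : V) :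
    (2 * Real.sin θ ^ 2) • ((F * G) ^ k) v = (2 * Real.sin θ ^ 2) • v -
      ((1 - Real.cos (2 * k * θ)) * f v +
        (Real.cos θ - Real.cos ((2 * k + 1) * θ)) * g v) • a -
      ((Real.cos θ - Real.cos ((2 * k - 1) * θ)) * f v + (1 - Real.cos (2 * k * θ)) * g v) • b := by
  induction k generalizing v with
  | zero => simp
  | succ k ih =>
    have h1 : ((F * G) ^ (k + 1)) v = ((F * G) ^ k) ((F * G) v) := by
      rw [pow_succ]; rfl
    have h2 : (F * G) v = v - (f v + 2 * Real.cos θ * g v) • a - g v • b := by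
      rw [Module.End.mul_apply, hG, hF]
      simp only [map_sub, map_smul, hfb, smul_eq_mul]
      have : f v - g v * (-2 * Real.cos θ) = f v + 2 * Real.cos θ * g v := by ring
      rw [this]; abel
    have hf : f ((F * G) v) = - f v - 2 * Real.cos θ * g v := by
      rw [h2]; simp only [map_sub, map_smul, hfa, hfb, smul_eq_mul]; ring
    have hg : g ((F * G) v) = 2 * Real.cos θ * f v + (4 * Real.cos θ ^ 2 - 1) * g v := by
      rw [h2]; simp only [map_sub, map_smul, hga, hgb, smul_eq_mul]; ring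
    rw [h1, ih, hf, hg, h2]
    have e1 : Real.cos (2 * (k : ℝ) * θ) = Real.cos (2 * k * θ) := rfl
    have s1 : Real.sin θ ^ 2 = 1 - Real.cos θ ^ 2 := Real.sin_sq θ
    have c1 : Real.cos ((2 * (k : ℝ) + 1) * θ) =
        Real.cos (2 * k * θ) * Real.cos θ - Real.sin (2 * k * θ) * Real.sin θ := by
      rw [← Real.cos_add]; congr 1; ring
    have c2 : Real.cos ((2 * (k : ℝ) - 1) * θ) =
        Real.cos (2 * k * θ) * Real.cos θ + Real.sin (2 * k * θ) * Real.sin θ := by
      rw [← Real.cos_sub]; congr 1; ring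
    have d2 : Real.cos (2 * θ) = 2 * Real.cos θ ^ 2 - 1 := Real.cos_two_mul θ
    have d3 : Real.sin (2 * θ) = 2 * Real.sin θ * Real.cos θ := Real.sin_two_mul θ
    have c3 : Real.cos (2 * ((k + 1 : ℕ) : ℝ) * θ) =
        Real.cos (2 * k * θ) * (2 * Real.cos θ ^ 2 - 1) -
          Real.sin (2 * k * θ) * (2 * Real.sin θ * Real.cos θ) := by
      rw [← d2, ← d3, ← Real.cos_add]; congr 1; push_cast; ring
    have c3' : Real.sin (2 * ((k + 1 : ℕ) : ℝ) * θ) =
        Real.sin (2 * k * θ) * (2 * Real.cos θ ^ 2 - 1) +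
          Real.cos (2 * k * θ) * (2 * Real.sin θ * Real.cos θ) := by
      rw [← d2, ← d3, ← Real.sin_add]; congr 1; push_cast; ring
    have c4 : Real.cos ((2 * ((k + 1 : ℕ) : ℝ) + 1) * θ) =
        Real.cos (2 * ((k + 1 : ℕ) : ℝ) * θ) * Real.cos θ -
          Real.sin (2 * ((k + 1 : ℕ) : ℝ) * θ) * Real.sin θ := by
      rw [← Real.cos_add]; congr 1; ring
    have c5 : Real.cos ((2 * ((k + 1 : ℕ) : ℝ) - 1) * θ) =
        Real.cos (2 * ((k + 1 : ℕ) : ℝ) * θ) * Real.cos θ +
          Real.sin (2 * ((k + 1 : ℕ) : ℝ) * θ) * Real.sin θ := by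
      rw [← Real.cos_sub]; congr 1; ring
    rw [c4, c5, c3, c3', c1, c2]
    generalize Real.cos (2 * k * θ) = C
    generalize Real.sin (2 * k * θ) = D
    generalize Real.cos θ = c at *
    generalize Real.sin θ = s at *
    generalize f v = x
    generalize g v = y
    rw [smul_sub, smul_sub, smul_smul, smul_smul]
    have ea : 2 * s ^ 2 * (x + 2 * c * y) + ((1 - C) * (-x - 2 * c * y) +
        (c - (C * c - D * s)) * (2 * c * x + (4 * c ^ 2 - 1) * y)) =
        (1 - (C * (2 * c ^ 2 - 1) - D * (2 * s * c))) * x +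
          (c - ((C * (2 * c ^ 2 - 1) - D * (2 * s * c)) * c -
            (D * (2 * c ^ 2 - 1) + C * (2 * s * c)) * s)) * y := by
      linear_combination (2 * x + 4 * c * y - 2 * C * c * y) * s1
    have eb : 2 * s ^ 2 * y + ((c - (C * c + D * s)) * (-x - 2 * c * y) +
        (1 - C) * (2 * c * x + (4 * c ^ 2 - 1) * y)) =
        (c - ((C * (2 * c ^ 2 - 1) - D * (2 * s * c)) * c +
            (D * (2 * c ^ 2 - 1) + C * (2 * s * c)) * s)) * x +
          (1 - (C * (2 * c ^ 2 - 1) - D * (2 * s * c))) * y := by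
      linear_combination (2 * y + 2 * C * c * x) * s1
    rw [← ea, ← eb]
    module

theorem geom_order (f g : V →ₗ[ℝ] ℝ) (a b : V) (m : ℕ) (hm : 2 ≤ m) (hfa : f a = 2) (hgb : g b = 2)
    (hfb : f b = -2 * Real.cos (Real.pi / m)) (hga : g a = -2 * Real.cos (Real.pi / m))
    (F G : Module.End ℝ V)
    (hF : ∀ v, F v = v - f v • a) (hG : ∀ v, G v = v - g v • b) : (F * G) ^ m = 1 := by
  have hm0 : (m : ℝ) ≠ 0 := by positivity
  have hm2 : (2 : ℝ) ≤ m := by exact_mod_cast hm
  have hs : 0 < Real.sin (Real.pi / m) := by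
    apply Real.sin_pos_of_pos_of_lt_pi
    · have := Real.pi_pos; positivity
    · rw [div_lt_iff₀ (by positivity)]
      nlinarith [Real.pi_pos]
  ext v
  have h := geom_pow f g a b (Real.pi / m) hfa hgb hfb hga F G hF hG m v
  have e1 : Real.cos (2 * m * (Real.pi / m)) = 1 := by
    have : 2 * (m : ℝ) * (Real.pi / m) = 2 * Real.pi := by field_simp
    rw [this, Real.cos_two_pi]
  have e2 : Real.cos ((2 * m + 1) * (Real.pi / m)) = Real.cos (Real.pi / m) := by
    have : (2 * (m : ℝ) + 1) * (Real.pi / m) = Real.pi / m + 2 * Real.pi := by field_simp; ring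
    rw [this, Real.cos_add_two_pi]
  have e3 : Real.cos ((2 * m - 1) * (Real.pi / m)) = Real.cos (Real.pi / m) := by
    have : (2 * (m : ℝ) - 1) * (Real.pi / m) = 2 * Real.pi - Real.pi / m := by field_simp
    rw [this, Real.cos_two_pi_sub]
  rw [e1, e2, e3] at h
  simp only [sub_self, zero_mul, add_zero, zero_smul, sub_zero] at h
  have h2 : (2 * Real.sin (Real.pi / m) ^ 2) ≠ 0 := by positivity
  exact smul_right_injective V h2 h

end dih

variable {B W : Type} [Group W]

theorem geom_co_al (M : CoxeterMatrix B) (i : B) : co M (al i) = co1 M i := by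
  simp [co, al, Finsupp.linearCombination_single]

theorem geom_co1_al (M : CoxeterMatrix B) (i j : B) : co1 M i (iv (al j)) = bil M j i := by
  rw [co1_apply]
  simp [iv, al]

theorem geom_bil_self (M : CoxeterMatrix B) (i : B) : bil M i i = 2 := by
  simp [bil]

theorem geom_rf_al (M : CoxeterMatrix B) (i : B) (v : VV B) :
    rf M (al i) v = v - co1 M i v • iv (al i) := by
  rw [rf_apply, geom_co_al]

theorem cd_geom : GEOM := by
  intro B W _ M cs
  have hl : M.IsLiftable (fun i => rf M (al i)) := by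
    intro i j
    by_cases hij : i = j
    · subst hij
      simp only [CoxeterMatrix.diagonal, pow_one]
      refine LinearMap.ext fun v => ?_
      rw [Module.End.mul_apply, geom_rf_al, geom_rf_al, map_sub, map_smul, geom_co1_al,
        geom_bil_self]
      simp only [smul_eq_mul, Module.End.one_apply]
      module
    · by_cases hm : M i j = 0
      · simp [hm]
      · have hm1 : M i j ≠ 1 := M.off_diagonal i j hij
        refine geom_order (co1 M i) (co1 M j) (iv (al i)) (iv (al j)) (M i j) (by omega) ?_ ?_ ?_ ?_ _ _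
          (geom_rf_al M i) (geom_rf_al M j)
        · rw [geom_co1_al, geom_bil_self]
        · rw [geom_co1_al, geom_bil_self]
        · rw [geom_co1_al, bil, M.symmetric]
        · rw [geom_co1_al, bil]
  exact ⟨⟨cs.lift ⟨_, hl⟩, fun i => cs.lift_apply_simple hl i⟩⟩

end Pool.Agent.H52.CD
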